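import Pool.Agent.Helper88.Counter

/-!
The counterexample of `Pool.Agent.Helper88.Counter`: it is a `G_δ` set, and the complement of each set `B` of dimension
at most one which contains it contains a round disc.
-/

set_option autoImplicit false

open Set Filter Topology Metric

namespace Pool.Agent.Helper88

/-- The complement of `B` contains a round closed disc. -/
theorem key_disc (B : Set E3) (hAB : AA ⊆ B) (hB : DimLE B 1) : ∃ (q : ℚ) (z1 : ℂ) (ρ : ℝ), 0 < ρ ∧
    ∀ z ∈ closedBall z1 ρ, jj (q, z) ∉ B := by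
  obtain ⟨Z, hZc, hZB, hZ⟩ := exists_closed_of_dimLE_one B hB
  let d : ℚ × ℚ → ℂ := fun p => ⟨p.1, p.2⟩
  let M : ℚ × ℚ → Set ℝ := fun p => {c | Irrational c ∧ jj (c, phi c + d p) ∈ Z}
  -- every irrational number belongs to some `M p`
  have hM : ∀ c : ℝ, Irrational c → ∃ p, c ∈ M p := by
    intro c hc
    obtain ⟨z, hz⟩ := hZ c
    have hzA : jj (c, z) ∉ AA := fun h => Set.disjoint_left.1 hZB hz (hAB h)
    have hzD : z - phi c ∈ DD := by
      by_contra hcon
      exact hzA (mem_AA_of hc hcon)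
    obtain ⟨⟨a, ha⟩, ⟨b, hb⟩⟩ := hzD
    refine ⟨(a, b), hc, ?_⟩
    have : phi c + d (a, b) = z := by
      have h1 : z - phi c = d (a, b) := Complex.ext ha hb
      rw [← h1]
      ring
    rw [this]
    exact hz
  -- the sets `M p` are relatively closed in the irrationals
  have hMc : ∀ p, ∀ c : ℝ, Irrational c → c ∈ closure (M p) → jj (c, phi c + d p) ∈ Z := by
    intro p c hc hcM
    have hcont : ContinuousWithinAt (fun c => jj (c, phi c + d p)) (M p) c := by
      have h1 : ContinuousWithinAt phi (M p) c :=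
        (phi_continuousOn c hc).mono fun x hx => hx.1
      exact jj_continuous.continuousAt.comp_continuousWithinAt
        (continuousWithinAt_id.prodMk (h1.add continuousWithinAt_const))
    have h2 := hcont.mem_closure_image hcM
    have h3 : closure ((fun c => jj (c, phi c + d p)) '' M p) ⊆ Z := by
      apply closure_minimal _ hZc
      rintro _ ⟨x, hx, rfl⟩
      exact hx.2
    exact h3 h2
  -- Baire category
  have hbaire : ∃ p, (interior (closure (M p))).Nonempty := by
    have hun : (⋃ i : (ℚ × ℚ) ⊕ ℚ, Sum.elim (fun p => closure (M p)) (fun q : ℚ => {(q : ℝ)}) i) =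
        (univ : Set ℝ) := by
      rw [eq_univ_iff_forall]
      intro c
      rw [mem_iUnion]
      by_cases hc : Irrational c
      · obtain ⟨p, hp⟩ := hM c hc
        exact ⟨Sum.inl p, subset_closure hp⟩
      · obtain ⟨q, hq⟩ := not_not.1 hc
        exact ⟨Sum.inr q, hq.symm⟩
    obtain ⟨i, hi⟩ := nonempty_interior_of_iUnion_of_closed (f := fun i : (ℚ × ℚ) ⊕ ℚ =>
      Sum.elim (fun p => closure (M p)) (fun q : ℚ => {(q : ℝ)}) i) (by
        rintro (p | q)
        · exact isClosed_closure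
        · exact isClosed_singleton) hun
    rcases i with p | q
    · exact ⟨p, hi⟩
    · simp at hi
  obtain ⟨p, hp⟩ := hbaire
  -- a rational point in the interior
  obtain ⟨q, hq⟩ : ∃ q : ℚ, (q : ℝ) ∈ interior (closure (M p)) := by
    obtain ⟨x, hx, q, rfl⟩ := Rat.denseRange_cast (𝕜 := ℝ) |>.inter_open_nonempty _
      isOpen_interior hp
    exact ⟨q, hx⟩
  -- the cluster values
  have hclus : ∀ y : ℂ, ‖y - phiRest q q‖ ≤ wt q → jj (q, y + d p) ∈ Z := by
    intro y hy
    have hseq : ∀ n : ℕ, ∃ c : ℝ, Irrational c ∧ |c - q| < 1 / ((n : ℝ) + 1) ∧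
        ‖phi c - y‖ < 1 / ((n : ℝ) + 1) := fun n =>
      phi_cluster q y hy _ Nat.one_div_pos_of_nat
    choose c hc1 hc2 hc3 using hseq
    have hc : Tendsto c atTop (𝓝 (q : ℝ)) := by
      rw [tendsto_iff_dist_tendsto_zero]
      apply squeeze_zero (fun n => dist_nonneg) (fun n => ?_) tendsto_one_div_add_atTop_nhds_zero_nat
      rw [Real.dist_eq]
      exact (hc2 n).le
    have hphi : Tendsto (fun n => phi (c n)) atTop (𝓝 y) := by
      rw [tendsto_iff_dist_tendsto_zero]
      apply squeeze_zero (fun n => dist_nonneg) (fun n => ?_) tendsto_one_div_add_atTop_nhds_zero_nat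
      rw [dist_eq_norm]
      exact (hc3 n).le
    have hlim : Tendsto (fun n => jj (c n, phi (c n) + d p)) atTop (𝓝 (jj (q, y + d p))) :=
      (jj_continuous.tendsto _).comp (hc.prodMk_nhds (hphi.add tendsto_const_nhds))
    apply hZc.mem_of_tendsto hlim
    have hev : ∀ᶠ n in atTop, c n ∈ interior (closure (M p)) :=
      hc (isOpen_interior.mem_nhds hq)
    filter_upwards [hev] with n hn
    exact hMc p (c n) (hc1 n) (interior_subset hn)
  refine ⟨q, phiRest q q + d p, wt q, wt_pos q, ?_⟩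
  intro z hz
  rw [mem_closedBall, dist_eq_norm] at hz
  have h1 := hclus (z - d p) (by
    rw [show z - d p - phiRest q q = z - (phiRest q q + d p) by ring]
    exact hz)
  rw [sub_add_cancel] at h1
  exact fun h => Set.disjoint_left.1 hZB h1 h

theorem AA_eq : AA = {x | Irrational (cc x)} ∩
    ⋂ p : ℚ × ℚ, {x | Irrational (cc x) → zz x - phi (cc x) ≠ ⟨p.1, p.2⟩} := by
  ext x
  constructor
  · rintro ⟨p, rfl⟩
    have h1 : cc (ee p) = p.1 := by simp [ee]
    have h2 : zz (ee p) = p.2 + phi p.1 := by simp [ee]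
    refine ⟨?_, ?_⟩
    · show Irrational (cc (ee p))
      rw [h1]
      exact p.1.2
    · rw [mem_iInter]
      rintro ⟨a, b⟩ _ h
      rw [h1, h2, add_sub_cancel_right] at h
      refine p.2.2 ⟨⟨a, ?_⟩, b, ?_⟩
      · rw [h]
      · rw [h]
  · rintro ⟨h1, h2⟩
    rw [← jj_cc_zz x]
    refine mem_AA_of h1 ?_
    rintro ⟨⟨a, ha⟩, b, hb⟩
    rw [mem_iInter] at h2
    exact h2 (a, b) h1 (Complex.ext ha hb)

theorem AA_isGδ : IsGδ AA := by
  have hT : IsGδ {x : E3 | Irrational (cc x)} := IsGδ.setOfPred_irrational.preimage cc_continuous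
  have hf : ContinuousOn (fun x : E3 => zz x - phi (cc x)) {x | Irrational (cc x)} :=
    zz_continuous.continuousOn.sub (phi_continuousOn.comp cc_continuous.continuousOn fun x hx => hx)
  have h : ∀ p : ℚ × ℚ, ∃ O : Set E3, IsOpen O ∧
      {x | Irrational (cc x)} ∩ {x | Irrational (cc x) → zz x - phi (cc x) ≠ ⟨p.1, p.2⟩} =
        {x | Irrational (cc x)} ∩ O := by
    intro p
    obtain ⟨O, hO, hO2⟩ := continuousOn_iff'.1 hf {(⟨p.1, p.2⟩ : ℂ)}ᶜ isOpen_compl_singleton
    refine ⟨O, hO, ?_⟩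
    rw [inter_comm _ O, ← hO2]
    ext x
    constructor
    · rintro ⟨h1, h2⟩
      exact ⟨h2 h1, h1⟩
    · rintro ⟨h1, h2⟩
      exact ⟨h2, fun _ => h1⟩
  choose O hO hO2 using h
  have h3 : AA = {x | Irrational (cc x)} ∩ ⋂ p : ℚ × ℚ, O p := by
    rw [AA_eq, inter_iInter, inter_iInter]
    exact iInter_congr hO2
  rw [h3]
  exact hT.inter (IsGδ.iInter fun p => (hO p).isGδ)

end Pool.Agent.Helper88
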